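import Pool.Agent.H902D.Ring

/-! The size of elements of `ℤ√d`, and values of binary forms. -/

set_option autoImplicit false

namespace Pool.Agent.H902D

open Zsqrtd Finset

variable {d : ℤ}

/-- the size of an element -/
noncomputable def wt (γ : ℤ√d) : ℝ := |(γ.re : ℝ)| + Real.sqrt (d.natAbs : ℝ) * |(γ.im : ℝ)|

theorem wt_nonneg (γ : ℤ√d) : 0 ≤ wt γ := by
  unfold wt; positivity

theorem wt_one : wt (1 : ℤ√d) = 1 := by
  simp [wt]

theorem wt_star (γ : ℤ√d) : wt (star γ) = wt γ := by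
  simp [wt]

theorem re_le_wt (γ : ℤ√d) : |(γ.re : ℝ)| ≤ wt γ := by
  unfold wt
  have : 0 ≤ Real.sqrt (d.natAbs : ℝ) * |(γ.im : ℝ)| := by positivity
  linarith

theorem im_le_wt (hd : d ≠ 0) (γ : ℤ√d) : |(γ.im : ℝ)| ≤ wt γ := by
  unfold wt
  have h1 : (1 : ℝ) ≤ Real.sqrt (d.natAbs : ℝ) := by
    rw [Real.one_le_sqrt]
    exact_mod_cast Int.natAbs_pos.2 hd
  have h2 := abs_nonneg (γ.im : ℝ)
  have h3 := abs_nonneg (γ.re : ℝ)
  nlinarith

theorem wt_mul (γ δ : ℤ√d) : wt (γ * δ) ≤ wt γ * wt δ := by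
  unfold wt
  set s := Real.sqrt (d.natAbs : ℝ) with hs
  have hs0 : 0 ≤ s := Real.sqrt_nonneg _
  have hss : s * s = |(d : ℝ)| := by
    rw [hs, Real.mul_self_sqrt (Nat.cast_nonneg _), Nat.cast_natAbs, Int.cast_abs]
  rw [re_mul, im_mul]
  push_cast
  have h1 : |(γ.re : ℝ) * δ.re + d * γ.im * δ.im| ≤
      |(γ.re : ℝ)| * |(δ.re : ℝ)| + s * s * (|(γ.im : ℝ)| * |(δ.im : ℝ)|) := by
    rw [hss]
    calc _ ≤ _ := abs_add_le _ _
      _ = _ := by rw [abs_mul, abs_mul, abs_mul]; ring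
  have h2 : |(γ.re : ℝ) * δ.im + γ.im * δ.re| ≤
      |(γ.re : ℝ)| * |(δ.im : ℝ)| + |(γ.im : ℝ)| * |(δ.re : ℝ)| := by
    calc _ ≤ _ := abs_add_le _ _
      _ = _ := by rw [abs_mul, abs_mul]
  have h3 := mul_le_mul_of_nonneg_left h2 hs0
  nlinarith

theorem wt_pow (γ : ℤ√d) (n : ℕ) : wt (γ ^ n) ≤ wt γ ^ n := by
  induction n with
  | zero => rw [pow_zero, pow_zero, wt_one]
  | succ n ih =>
    rw [pow_succ, pow_succ]
    exact (wt_mul _ _).trans (mul_le_mul_of_nonneg_right ih (wt_nonneg _))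

theorem wt_prod {ι : Type*} (s : Finset ι) (g : ι → ℤ√d) : wt (∏ i ∈ s, g i) ≤ ∏ i ∈ s, wt (g i) := by
  classical
  induction s using Finset.induction_on with
  | empty => rw [prod_empty, prod_empty, wt_one]
  | insert a s ha ih =>
    rw [prod_insert ha, prod_insert ha]
    exact (wt_mul _ _).trans (mul_le_mul_of_nonneg_left ih (wt_nonneg _))

theorem wt_pp {ι : Type*} [Fintype ι] (β : ι → ℤ√d) {W : ℝ} (hW : 1 ≤ W) (h : ∀ i, wt (β i) ≤ W)
    (f f' : ι → ℕ) (E : ℕ) (hE : ∀ i, f i + f' i < E) :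
    wt (pp β f * star (pp β f')) ≤ W ^ (Fintype.card ι * E) := by
  have h1 : ∀ f : ι → ℕ, wt (pp β f) ≤ ∏ i, W ^ f i := by
    intro f
    unfold pp
    refine (wt_prod _ _).trans (Finset.prod_le_prod (fun i _ => wt_nonneg _) fun i _ => ?_)
    exact (wt_pow _ _).trans (pow_le_pow_left₀ (wt_nonneg _) (h i) _)
  calc wt (pp β f * star (pp β f')) ≤ wt (pp β f) * wt (star (pp β f')) := wt_mul _ _
    _ = wt (pp β f) * wt (pp β f') := by rw [wt_star]
    _ ≤ (∏ i, W ^ f i) * ∏ i, W ^ f' i :=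
        mul_le_mul (h1 f) (h1 f') (wt_nonneg _) (Finset.prod_nonneg fun i _ => by positivity)
    _ = ∏ i, W ^ (f i + f' i) := by
        rw [← Finset.prod_mul_distrib]
        exact Finset.prod_congr rfl fun i _ => (pow_add _ _ _).symm
    _ ≤ ∏ _i : ι, W ^ E := Finset.prod_le_prod (fun i _ => by positivity) fun i _ =>
        pow_le_pow_right₀ hW (hE i).le
    _ = W ^ (Fintype.card ι * E) := by
        rw [Finset.prod_const, Finset.card_univ, ← pow_mul, mul_comm]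

/-- the exponents of a homogeneous form -/
theorem form_deg {G : MvPolynomial (Fin 2) ℤ} {m : ℕ} (hG : G.IsHomogeneous m)
    {e : Fin 2 →₀ ℕ} (he : e ∈ G.support) : e 0 + e 1 = m := by
  have h1 := hG (MvPolynomial.mem_support_iff.1 he)
  rw [Finsupp.weight_apply, Finsupp.sum_fintype _ _ (fun i => by simp), Fin.sum_univ_two] at h1
  simpa using h1

theorem form_eval (G : MvPolynomial (Fin 2) ℤ) (x y : ℤ) :
    MvPolynomial.eval ![x, y] G = ∑ e ∈ G.support, G.coeff e * (x ^ e 0 * y ^ e 1) := by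
  rw [MvPolynomial.eval_eq']
  refine Finset.sum_congr rfl fun e _ => ?_
  rw [Fin.prod_univ_two]
  rfl

theorem form_le (G : MvPolynomial (Fin 2) ℤ) (m : ℕ) (hG : G.IsHomogeneous m) :
    ∃ A : ℝ, 1 ≤ A ∧ ∀ (x y : ℤ) (H : ℝ), 0 ≤ H → |(x : ℝ)| ≤ H → |(y : ℝ)| ≤ H →
      |((MvPolynomial.eval ![x, y] G : ℤ) : ℝ)| ≤ A * H ^ m := by
  refine ⟨1 + ∑ e ∈ G.support, |((G.coeff e : ℤ) : ℝ)|, ?_, ?_⟩
  · have : 0 ≤ ∑ e ∈ G.support, |((G.coeff e : ℤ) : ℝ)| := Finset.sum_nonneg fun _ _ => abs_nonneg _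
    linarith
  · intro x y H hH hx hy
    rw [form_eval]
    push_cast
    calc |∑ e ∈ G.support, ((G.coeff e : ℤ) : ℝ) * ((x : ℝ) ^ e 0 * (y : ℝ) ^ e 1)| ≤
        ∑ e ∈ G.support, |((G.coeff e : ℤ) : ℝ) * ((x : ℝ) ^ e 0 * (y : ℝ) ^ e 1)| :=
          Finset.abs_sum_le_sum_abs _ _
      _ ≤ ∑ e ∈ G.support, |((G.coeff e : ℤ) : ℝ)| * H ^ m := by
          refine Finset.sum_le_sum fun e he => ?_
          rw [abs_mul, abs_mul, abs_pow, abs_pow]
          refine mul_le_mul_of_nonneg_left ?_ (abs_nonneg _)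
          rw [← form_deg hG he, pow_add]
          exact mul_le_mul (pow_le_pow_left₀ (abs_nonneg _) hx _)
            (pow_le_pow_left₀ (abs_nonneg _) hy _) (by positivity) (by positivity)
      _ = (∑ e ∈ G.support, |((G.coeff e : ℤ) : ℝ)|) * H ^ m := (Finset.sum_mul _ _ _).symm
      _ ≤ _ := by
          have : 0 ≤ H ^ m := by positivity
          nlinarith

/-- a form does not vanish at a primitive point with large second coordinate -/
theorem form_ne (G : MvPolynomial (Fin 2) ℤ) (m : ℕ) (hG : G.IsHomogeneous m) (h0 : G ≠ 0) :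
    ∃ A : ℕ, ∀ x y : ℤ, IsCoprime x y → A < y.natAbs → MvPolynomial.eval ![x, y] G ≠ 0 := by
  classical
  have hne : G.support.Nonempty := by
    rw [Finset.nonempty_iff_ne_empty, Ne, MvPolynomial.support_eq_empty]
    exact h0
  obtain ⟨c, hc, hmax⟩ := Finset.exists_max_image G.support (fun e => e 0) hne
  refine ⟨(G.coeff c).natAbs, fun x y hxy hy hzero => ?_⟩
  have hy0 : y ≠ 0 := by
    rintro rfl
    simp at hy
  rw [form_eval, ← Finset.add_sum_erase _ _ hc] at hzero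
  have hdvd : y ^ (c 1 + 1) ∣ ∑ e ∈ G.support.erase c, G.coeff e * (x ^ e 0 * y ^ e 1) := by
    refine Finset.dvd_sum fun e he => ?_
    have he' := Finset.mem_of_mem_erase he
    have hne' := Finset.ne_of_mem_erase he
    have h1 := form_deg hG he'
    have h2 := form_deg hG hc
    have h3 := hmax e he'
    have h4 : e 0 ≠ c 0 := by
      intro h4
      apply hne'
      ext i
      fin_cases i
      · exact h4
      · show e 1 = c 1
        omega
    have h5 : c 1 + 1 ≤ e 1 := by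
      have : e 0 < c 0 := lt_of_le_of_ne h3 h4
      omega
    exact Dvd.dvd.mul_left (Dvd.dvd.mul_left (pow_dvd_pow y h5) _) _
  have h6 : y ^ (c 1 + 1) ∣ G.coeff c * (x ^ c 0 * y ^ c 1) := by
    rw [eq_neg_of_add_eq_zero_left hzero]
    exact (dvd_neg).2 hdvd
  have h7 : y ∣ G.coeff c * x ^ c 0 := by
    have h8 : y ^ c 1 * y ∣ y ^ c 1 * (G.coeff c * x ^ c 0) := by
      rw [← pow_succ]
      convert h6 using 1
      ring
    exact (mul_dvd_mul_iff_left (pow_ne_zero _ hy0)).1 h8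
  have h9 : y ∣ G.coeff c := (hxy.symm.pow_right).dvd_of_dvd_mul_right h7
  have h10 : G.coeff c ≠ 0 := MvPolynomial.mem_support_iff.1 hc
  have h11 := Nat.le_of_dvd (Int.natAbs_pos.2 h10) (Int.natAbs_dvd_natAbs.2 h9)
  omega

end Pool.Agent.H902D
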