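import Pool.Agent.H902D.Thue
import Pool.Agent.H902D.Size

/-! The construction of the points. -/

set_option autoImplicit false

namespace Pool.Agent.H902D

open Zsqrtd Finset

theorem core (a b c : ℤ) (ha : a ≠ 0) (hd : ¬ IsSquare (b * b - 4 * a * c)) (p k E z : ℕ)
    (hp : p.Prime) (hk : k ≠ 0) (hpd : (b * b - 4 * a * c).natAbs + 1 < p)
    (L : Finset ℕ) (hL : ∀ l ∈ L, l.Prime ∧ l ≡ 1 [MOD 4 * (b * b - 4 * a * c).natAbs] ∧
      p < l ∧ l ≤ z) (hE : 2 * p ^ k < E ^ L.card) (hz : 1 ≤ z) :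
    ∃ x y : ℤ, IsCoprime x y ∧ y ≠ 0 ∧ ((p ^ k : ℕ) : ℤ) ∣ y ∧
      |(x : ℝ)| ≤ (1 + |(b : ℝ)| + 2 * |(a : ℝ)|) *
        ((1 + Real.sqrt ((b * b - 4 * a * c).natAbs : ℝ)) * Real.sqrt z) ^ (L.card * E) ∧
      |(y : ℝ)| ≤ (1 + |(b : ℝ)| + 2 * |(a : ℝ)|) *
        ((1 + Real.sqrt ((b * b - 4 * a * c).natAbs : ℝ)) * Real.sqrt z) ^ (L.card * E) ∧
      a * x ^ 2 + b * x * y + c * y ^ 2 ≠ 0 ∧
      ∀ q : ℕ, q.Prime → (q : ℤ) ∣ a * x ^ 2 + b * x * y + c * y ^ 2 →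
        q ∈ L ∨ q ≤ a.natAbs + (b * b - 4 * a * c).natAbs + 1 := by
  classical
  set d : ℤ := b * b - 4 * a * c with hdef
  have hd0 : d ≠ 0 := by
    intro h0
    rw [h0] at hd
    exact hd ⟨0, rfl⟩
  have hns : ∀ n : ℤ, d ≠ n * n := fun n hn => hd ⟨n, hn⟩
  have hpz : Prime (p : ℤ) := Nat.prime_iff_prime_int.1 hp
  have hprime : ∀ i : L, (i : ℕ).Prime := fun i => (hL i i.2).1
  have hfact : ∀ i : L, Fact (i : ℕ).Prime := fun i => ⟨hprime i⟩
  have hlt : ∀ i : L, d.natAbs + 1 < (i : ℕ) := fun i => hpd.trans (hL i i.2).2.2.1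
  have hex : ∀ i : L, ∃ (β : ℤ√d) (φ : ℤ√d →+* ZMod (i : ℕ)), φ β ≠ 0 ∧ φ (star β) = 0 ∧
      |β.re| ≤ Nat.sqrt i ∧ |β.im| ≤ Nat.sqrt i ∧
      ∃ k : ℤ, k ≠ 0 ∧ k.natAbs ≤ d.natAbs + 1 ∧ β.norm = k * (i : ℕ) := fun i =>
    exists_beta d hd i (hprime i) (hL i i.2).2.1 (hlt i)
  choose β φ hφ hφs hre him κ hκ0 hκ hnorm using hex
  -- values at the other primes
  have hnz : ∀ i j : L, j ≠ i → ((β j).norm : ZMod (i : ℕ)) ≠ 0 := by
    intro i j hji h0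
    rw [ZMod.intCast_zmod_eq_zero_iff_dvd, hnorm j] at h0
    have hiz : Prime ((i : ℕ) : ℤ) := Nat.prime_iff_prime_int.1 (hprime i)
    rcases hiz.dvd_or_dvd h0 with h1 | h1
    · have h2 := Nat.le_of_dvd (Int.natAbs_pos.2 (hκ0 j)) (Int.natCast_dvd.1 h1)
      have := hκ j
      have := hlt i
      omega
    · have h2 : (i : ℕ) ∣ (j : ℕ) := by exact_mod_cast h1
      have h3 := (Nat.prime_dvd_prime_iff_eq (hprime i) (hprime j)).1 h2
      exact hji (Subtype.ext h3.symm)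
  have hmul : ∀ i j : L, φ i (β j) * φ i (star (β j)) = ((β j).norm : ZMod (i : ℕ)) := by
    intro i j
    rw [← map_mul, ← norm_eq_mul_conj, map_intCast]
  have h1 : ∀ i j : L, φ i (β j) ≠ 0 := by
    intro i j
    by_cases hji : j = i
    · subst hji
      exact hφ j
    · intro h0
      apply hnz i j hji
      rw [← hmul, h0, zero_mul]
  have h3 : ∀ i j : L, j ≠ i → φ i (star (β j)) ≠ 0 := by
    intro i j hji h0
    apply hnz i j hji
    rw [← hmul, h0, mul_zero]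
  have hpn : ∀ i : L, ¬ (p : ℤ) ∣ (β i).norm := by
    intro i h0
    rw [hnorm i] at h0
    rcases hpz.dvd_or_dvd h0 with h1 | h1
    · have h2 := Nat.le_of_dvd (Int.natAbs_pos.2 (hκ0 i)) (Int.natCast_dvd.1 h1)
      have := hκ i
      omega
    · have h2 : p ∣ (i : ℕ) := by exact_mod_cast h1
      have h3 := (Nat.prime_dvd_prime_iff_eq hp (hprime i)).1 h2
      have := (hL i i.2).2.2.1
      omega
  obtain ⟨f, f', hff, hY0, hYp⟩ := pigeon β (fun i : L => ZMod (i : ℕ)) φ h1 hφs h3 hp hk hpn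
    (by rw [Fintype.card_coe]; exact hE)
  -- sizes
  set W : ℝ := (1 + Real.sqrt (d.natAbs : ℝ)) * Real.sqrt z with hW
  have hs0 : 0 ≤ Real.sqrt (d.natAbs : ℝ) := Real.sqrt_nonneg _
  have hz1 : 1 ≤ Real.sqrt z := by
    rw [Real.one_le_sqrt]
    exact_mod_cast hz
  have hW1 : 1 ≤ W := by
    rw [hW]
    nlinarith
  have hβW : ∀ i : L, wt (β i) ≤ W := by
    intro i
    have h4 : ((Nat.sqrt (i : ℕ) : ℕ) : ℝ) ≤ Real.sqrt z :=
      (Real.nat_sqrt_le_real_sqrt).trans (Real.sqrt_le_sqrt (by exact_mod_cast (hL i i.2).2.2.2))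
    have h5 : |((β i).re : ℝ)| ≤ Real.sqrt z := by
      refine le_trans ?_ h4
      exact_mod_cast hre i
    have h6 : |((β i).im : ℝ)| ≤ Real.sqrt z := by
      refine le_trans ?_ h4
      exact_mod_cast him i
    unfold wt
    rw [hW]
    nlinarith
  have hwt := wt_pp β hW1 hβW f f' E hff
  rw [Fintype.card_coe] at hwt
  set γ : ℤ√d := pp β f * star (pp β f') with hγ
  have hγn : γ.norm = (∏ i, (β i).norm ^ f i) * ∏ i, (β i).norm ^ f' i := by
    rw [hγ, norm_mul, norm_conj, norm_pp, norm_pp]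
  have hprn : ∀ q : ℕ, q.Prime → (q : ℤ) ∣ γ.norm → ∃ i, (q : ℤ) ∣ (β i).norm := by
    intro q hq hdvd
    have hqz : Prime (q : ℤ) := Nat.prime_iff_prime_int.1 hq
    rw [hγn] at hdvd
    rcases hqz.dvd_or_dvd hdvd with h4 | h4
    · obtain ⟨i, -, hi⟩ := (hqz.dvd_finsetProd_iff _).1 h4
      exact ⟨i, hqz.dvd_of_dvd_pow hi⟩
    · obtain ⟨i, -, hi⟩ := (hqz.dvd_finsetProd_iff _).1 h4
      exact ⟨i, hqz.dvd_of_dvd_pow hi⟩
  have hγ0 : γ.norm ≠ 0 := by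
    rw [Ne, Zsqrtd.norm_eq_zero hns]
    intro h4
    rw [h4] at hY0
    exact hY0 rfl
  set X : ℤ := γ.re with hX
  set Y : ℤ := γ.im with hY
  have hnXY : γ.norm = X * X - d * Y * Y := norm_def γ
  -- the point
  have hy0 : 2 * a * Y ≠ 0 := mul_ne_zero (mul_ne_zero two_ne_zero ha) hY0
  have hg : 0 < Int.gcd (X - b * Y) (2 * a * Y) := Int.gcd_pos_of_ne_zero_right _ hy0
  obtain ⟨x, y, hxy, hx, hy⟩ := Int.exists_gcd_one hg
  set g : ℕ := Int.gcd (X - b * Y) (2 * a * Y) with hgdef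
  have hg1 : (1 : ℤ) ≤ (g : ℤ) := by exact_mod_cast hg
  have hyne : y ≠ 0 := by
    rintro rfl
    rw [zero_mul] at hy
    exact hy0 hy
  have hpY : (p : ℤ) ∣ Y := by
    refine dvd_trans ?_ hYp
    push_cast
    exact dvd_pow_self _ hk
  have hpg : ¬ (p : ℤ) ∣ (g : ℤ) := by
    intro h4
    have h5 : (p : ℤ) ∣ X - b * Y := hx ▸ Dvd.dvd.mul_left h4 _
    have h6 : (p : ℤ) ∣ X := by
      have := dvd_add h5 (Dvd.dvd.mul_left hpY b)
      rwa [sub_add_cancel] at this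
    have h7 : (p : ℤ) ∣ γ.norm := by
      rw [hnXY]
      exact dvd_sub (Dvd.dvd.mul_left h6 _) (Dvd.dvd.mul_left hpY _)
    obtain ⟨i, hi⟩ := hprn p hp h7
    exact hpn i hi
  have hpy : ((p ^ k : ℕ) : ℤ) ∣ y := by
    have h4 : ((p ^ k : ℕ) : ℤ) ∣ y * g := by
      rw [← hy]
      exact Dvd.dvd.mul_left hYp _
    have h5 : IsCoprime ((p ^ k : ℕ) : ℤ) (g : ℤ) := by
      push_cast
      exact IsCoprime.pow_left (hpz.coprime_iff_not_dvd.2 hpg)
    exact h5.dvd_of_dvd_mul_right h4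
  have hQ : (g : ℤ) ^ 2 * (a * x ^ 2 + b * x * y + c * y ^ 2) = a * γ.norm := by
    rw [hnXY]
    have : (g : ℤ) ^ 2 * (a * x ^ 2 + b * x * y + c * y ^ 2) =
      a * (x * g) ^ 2 + b * (x * g) * (y * g) + c * (y * g) ^ 2 := by ring
    rw [this, ← hx, ← hy, hdef]
    ring
  have hsize : ∀ w v : ℤ, w = v * g → |(v : ℝ)| ≤ |(w : ℝ)| := by
    intro w v h4
    rw [h4]
    push_cast
    rw [abs_mul]
    have h5 : (1 : ℝ) ≤ |((g : ℕ) : ℝ)| := by
      rw [Nat.abs_cast]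
      exact_mod_cast hg
    have := abs_nonneg (v : ℝ)
    nlinarith
  have hXw : |(X : ℝ)| ≤ W ^ (L.card * E) := (re_le_wt γ).trans hwt
  have hYw : |(Y : ℝ)| ≤ W ^ (L.card * E) := (im_le_wt hd0 γ).trans hwt
  have hWp : 0 ≤ W ^ (L.card * E) := by positivity
  refine ⟨x, y, Int.isCoprime_iff_gcd_eq_one.2 hxy, hyne, hpy, ?_, ?_, ?_, ?_⟩
  · refine (hsize _ _ hx).trans ?_
    push_cast
    calc |(X : ℝ) - b * Y| ≤ |(X : ℝ)| + |(b : ℝ) * Y| := abs_sub _ _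
      _ = |(X : ℝ)| + |(b : ℝ)| * |(Y : ℝ)| := by rw [abs_mul]
      _ ≤ _ := by
        have := abs_nonneg (b : ℝ)
        have := abs_nonneg (a : ℝ)
        nlinarith
  · refine (hsize _ _ hy).trans ?_
    push_cast
    rw [abs_mul, abs_mul, abs_two]
    have := abs_nonneg (b : ℝ)
    have := abs_nonneg (a : ℝ)
    nlinarith
  · intro h0
    rw [h0, mul_zero] at hQ
    exact mul_ne_zero ha hγ0 hQ.symm
  · intro q hq hdvd
    have hqz : Prime (q : ℤ) := Nat.prime_iff_prime_int.1 hq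
    have h4 : (q : ℤ) ∣ a * γ.norm := by
      rw [← hQ]
      exact Dvd.dvd.mul_left hdvd _
    rcases hqz.dvd_or_dvd h4 with h5 | h5
    · right
      have := Nat.le_of_dvd (Int.natAbs_pos.2 ha) (Int.natCast_dvd.1 h5)
      omega
    · obtain ⟨i, hi⟩ := hprn q hq h5
      rw [hnorm i] at hi
      rcases hqz.dvd_or_dvd hi with h6 | h6
      · right
        have h7 := Nat.le_of_dvd (Int.natAbs_pos.2 (hκ0 i)) (Int.natCast_dvd.1 h6)
        have := hκ i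
        omega
      · left
        have h7 : q ∣ (i : ℕ) := by exact_mod_cast h6
        rw [(Nat.prime_dvd_prime_iff_eq hq (hprime i)).1 h7]
        exact i.2

end Pool.Agent.H902D
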