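import Pool.Agent.H902D.Core

/-! The radical of the values. -/

set_option autoImplicit false

namespace Pool.Agent.H902D

open Finset

/-- logarithm of the radical -/
noncomputable def rl (n : ℕ) : ℝ := ∑ q ∈ n.primeFactors, Real.log q

theorem logn_nonneg (q : ℕ) : 0 ≤ Real.log (q : ℝ) := Real.log_natCast_nonneg q

theorem rl_le_log {n : ℕ} (hn : n ≠ 0) : rl n ≤ Real.log n := by
  unfold rl
  rw [← Real.log_prod (fun q hq => by
    exact_mod_cast (Nat.prime_of_mem_primeFactors hq).ne_zero)]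
  refine Real.log_le_log ?_ ?_
  · exact Finset.prod_pos fun q hq => by exact_mod_cast (Nat.prime_of_mem_primeFactors hq).pos
  · have h1 := Nat.le_of_dvd (Nat.pos_of_ne_zero hn) (Nat.prod_primeFactors_dvd n)
    calc (∏ q ∈ n.primeFactors, (q : ℝ)) = ((∏ q ∈ n.primeFactors, q : ℕ) : ℝ) := by
          push_cast; rfl
      _ ≤ n := Nat.cast_le.2 h1

theorem rl_mul_le {u v : ℕ} (hu : u ≠ 0) (hv : v ≠ 0) : rl (u * v) ≤ rl u + rl v := by
  classical
  unfold rl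
  rw [Nat.primeFactors_mul hu hv, ← Finset.sum_union_inter]
  have : 0 ≤ ∑ q ∈ u.primeFactors ∩ v.primeFactors, Real.log (q : ℝ) :=
    Finset.sum_nonneg fun q _ => logn_nonneg q
  linarith

theorem rl_pow_dvd {n p k : ℕ} (hp : p.Prime) (hk : k ≠ 0) (hn : n ≠ 0) (h : p ^ k ∣ n) :
    rl n ≤ Real.log n - ((k : ℝ) - 1) * Real.log p := by
  obtain ⟨w, rfl⟩ := h
  have hw : w ≠ 0 := right_ne_zero_of_mul hn
  have hpk : p ^ k ≠ 0 := pow_ne_zero _ hp.ne_zero
  have h1 := rl_mul_le hpk hw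
  have h2 := rl_le_log hw
  have h3 : rl (p ^ k) = Real.log p := by
    unfold rl
    rw [Nat.primeFactors_prime_pow hk hp, Finset.sum_singleton]
  have h4 : Real.log ((p ^ k * w : ℕ) : ℝ) = k * Real.log p + Real.log w := by
    push_cast
    rw [Real.log_mul (by exact_mod_cast hpk) (by exact_mod_cast hw), Real.log_pow]
  rw [h4]
  linarith

theorem rl_small {n z A : ℕ} (L : Finset ℕ) (hL : ∀ l ∈ L, l ≤ z)
    (h : ∀ q : ℕ, q.Prime → q ∣ n → q ∈ L ∨ q ≤ A) :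
    rl n ≤ L.card * Real.log z + ∑ q ∈ range (A + 1), Real.log q := by
  classical
  unfold rl
  have h1 : n.primeFactors ⊆ L ∪ range (A + 1) := by
    intro q hq
    rw [mem_union, mem_range]
    rcases h q (Nat.prime_of_mem_primeFactors hq) (Nat.dvd_of_mem_primeFactors hq) with h2 | h2
    · exact Or.inl h2
    · exact Or.inr (by omega)
  have h2 : ∑ q ∈ n.primeFactors, Real.log (q : ℝ) ≤ ∑ q ∈ L ∪ range (A + 1), Real.log (q : ℝ) :=
    Finset.sum_le_sum_of_subset_of_nonneg h1 fun q _ _ => logn_nonneg q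
  have h3 : ∑ q ∈ L ∪ range (A + 1), Real.log (q : ℝ) ≤
      ∑ q ∈ L, Real.log (q : ℝ) + ∑ q ∈ range (A + 1), Real.log (q : ℝ) := by
    rw [← Finset.sum_union_inter]
    have : 0 ≤ ∑ q ∈ L ∩ range (A + 1), Real.log (q : ℝ) :=
      Finset.sum_nonneg fun q _ => logn_nonneg q
    linarith
  have h4 : ∑ q ∈ L, Real.log (q : ℝ) ≤ L.card * Real.log z := by
    rw [← nsmul_eq_mul]
    refine Finset.sum_le_card_nsmul _ _ _ fun q hq => ?_
    rcases Nat.eq_zero_or_pos q with rfl | hq0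
    · simp [logn_nonneg]
    · exact Real.log_le_log (by exact_mod_cast hq0) (by exact_mod_cast hL q hq)
  linarith

/-- the upper bound for the radical -/
theorem rad_bound (y Q G : ℤ) (hy : y ≠ 0) (hQ : Q ≠ 0) (hG : G ≠ 0) {p k z A : ℕ} (hp : p.Prime)
    (hk : k ≠ 0) (hpy : ((p ^ k : ℕ) : ℤ) ∣ y) (L : Finset ℕ) (hL : ∀ l ∈ L, l ≤ z)
    (h : ∀ q : ℕ, q.Prime → (q : ℤ) ∣ Q → q ∈ L ∨ q ≤ A) (m : ℕ) (M H : ℝ) (hM : 1 ≤ M) (hH : 1 ≤ H)
    (hyH : |(y : ℝ)| ≤ H) (hGH : |(G : ℝ)| ≤ M * H ^ m) :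
    ∑ q ∈ (y * Q * G).natAbs.primeFactors, Real.log (q : ℝ) ≤
      (m + 1) * Real.log H - ((k : ℝ) - 1) * Real.log p + L.card * Real.log z +
        ∑ q ∈ range (A + 1), Real.log (q : ℝ) + Real.log M := by
  have h1 : (y * Q * G).natAbs = y.natAbs * Q.natAbs * G.natAbs := by
    rw [Int.natAbs_mul, Int.natAbs_mul]
  have hy' : y.natAbs ≠ 0 := Int.natAbs_ne_zero.2 hy
  have hQ' : Q.natAbs ≠ 0 := Int.natAbs_ne_zero.2 hQ
  have hG' : G.natAbs ≠ 0 := Int.natAbs_ne_zero.2 hG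
  have h2 : rl (y * Q * G).natAbs ≤ rl y.natAbs + rl Q.natAbs + rl G.natAbs := by
    rw [h1]
    exact (rl_mul_le (mul_ne_zero hy' hQ') hG').trans (by linarith [rl_mul_le hy' hQ'])
  have h3 := rl_pow_dvd hp hk hy' (Int.natCast_dvd.1 hpy)
  have h4 := rl_small (n := Q.natAbs) L hL fun q hq hdvd =>
    h q hq (Int.natCast_dvd.2 hdvd)
  have h5 := rl_le_log hG'
  have ey : ((y.natAbs : ℕ) : ℝ) = |(y : ℝ)| := by
    rw [Nat.cast_natAbs, Int.cast_abs]
  have eG : ((G.natAbs : ℕ) : ℝ) = |(G : ℝ)| := by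
    rw [Nat.cast_natAbs, Int.cast_abs]
  have h6 : Real.log ((y.natAbs : ℕ) : ℝ) ≤ Real.log H := by
    refine Real.log_le_log (by exact_mod_cast Nat.pos_of_ne_zero hy') ?_
    rw [ey]; exact hyH
  have h7 : Real.log ((G.natAbs : ℕ) : ℝ) ≤ Real.log M + m * Real.log H := by
    rw [← Real.log_pow, ← Real.log_mul (by positivity) (by positivity)]
    refine Real.log_le_log (by exact_mod_cast Nat.pos_of_ne_zero hG') ?_
    rw [eG]; exact hGH
  have h8 : ∑ q ∈ (y * Q * G).natAbs.primeFactors, Real.log (q : ℝ) = rl (y * Q * G).natAbs := rfl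
  rw [h8]
  linarith

end Pool.Agent.H902D
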