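import Pool.Agent.H902D.Est
import Pool.Agent.H131DG.Primes

/-! The error term. -/

set_option autoImplicit false

namespace Pool.Agent.H902D

open Finset Filter

theorem choose_z (c0 A B C : ℝ) (hc0 : 0 < c0) (N : ℕ) : ∃ z : ℕ, N ≤ z ∧
    A ≤ c0 * (z / Real.log z) ∧ B ≤ z ∧ Real.sqrt z + Real.log z + B ≤ c0 * z ∧
    C < Real.sqrt z := by
  have h1 : Tendsto (fun z : ℕ => c0 * ((z : ℝ) / Real.log z)) atTop atTop := by
    refine Tendsto.const_mul_atTop hc0 ?_
    have h2 := Real.tendsto_pow_log_div_mul_add_atTop 1 0 1 one_ne_zero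
    have h3 : Tendsto (fun x : ℝ => x / Real.log x) atTop atTop := by
      have h4 : Tendsto (fun x : ℝ => (Real.log x / x)⁻¹) atTop atTop := by
        refine Tendsto.inv_tendsto_nhdsGT_zero ?_
        rw [tendsto_nhdsWithin_iff]
        refine ⟨by simpa using h2, ?_⟩
        filter_upwards [eventually_gt_atTop 1] with x hx
        exact div_pos (Real.log_pos hx) (by linarith)
      refine h4.congr fun x => ?_
      rw [inv_div]
    exact h3.comp tendsto_natCast_atTop_atTop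
  have h5 : Tendsto (fun z : ℕ => Real.sqrt (z : ℝ)) atTop atTop :=
    Real.tendsto_sqrt_atTop.comp tendsto_natCast_atTop_atTop
  have h6 : ∀ᶠ z : ℕ in atTop, Real.sqrt z + Real.log z + B ≤ c0 * z := by
    filter_upwards [h5.eventually_ge_atTop (4 / c0), h5.eventually_ge_atTop (|B| + 1),
      h5.eventually_ge_atTop 1] with z hz1 hz2 hz3
    have hs : Real.sqrt (z : ℝ) * Real.sqrt z = z := Real.mul_self_sqrt (Nat.cast_nonneg _)
    have hlog : Real.log z ≤ 2 * Real.sqrt z := by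
      have h7 : Real.log (z : ℝ) = 2 * Real.log (Real.sqrt z) := by
        rw [Real.log_sqrt (Nat.cast_nonneg _)]
        ring
      rw [h7]
      have := Real.log_le_sub_one_of_pos (show 0 < Real.sqrt (z : ℝ) by linarith)
      linarith
    have h8 : 4 ≤ c0 * Real.sqrt z := by
      rw [div_le_iff₀ hc0] at hz1
      linarith
    have h9 : 4 * Real.sqrt z ≤ c0 * z := by
      have h10 := mul_le_mul_of_nonneg_right h8 (Real.sqrt_nonneg (z : ℝ))
      rw [mul_assoc, hs] at h10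
      exact h10
    have := le_abs_self B
    linarith
  obtain ⟨z, hz⟩ := ((eventually_ge_atTop N).and ((h1.eventually_ge_atTop A).and
    ((tendsto_natCast_atTop_atTop (R := ℝ)).eventually_ge_atTop B |>.and
      (h6.and (h5.eventually_gt_atTop C))))).exists
  exact ⟨z, hz.1, hz.2.1, hz.2.2.1, hz.2.2.2.1, hz.2.2.2.2⟩

theorem main (a b c : ℤ) (ha : a ≠ 0) (hd : ¬ IsSquare (b * b - 4 * a * c)) (m : ℕ)
    (G : MvPolynomial (Fin 2) ℤ) (hG : G.IsHomogeneous m) (hG0 : G ≠ 0) :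
    ∃ κ : ℝ, 0 < κ ∧ ∀ C : ℝ, ∃ x y : ℤ, IsCoprime x y ∧
      y ≠ 0 ∧ a * x ^ 2 + b * x * y + c * y ^ 2 ≠ 0 ∧ MvPolynomial.eval ![x, y] G ≠ 0 ∧
      C < Real.log ((max |x| |y| : ℤ) : ℝ) ∧
      ∑ q ∈ (y * (a * x ^ 2 + b * x * y + c * y ^ 2) *
          MvPolynomial.eval ![x, y] G).natAbs.primeFactors, Real.log (q : ℝ) + C +
        κ * (Real.sqrt (Real.log ((max |x| |y| : ℤ) : ℝ)) /
          Real.log (Real.log ((max |x| |y| : ℤ) : ℝ))) ≤
        (m + 1) * Real.log ((max |x| |y| : ℤ) : ℝ) := by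
  classical
  set d : ℤ := b * b - 4 * a * c with hdef
  have hd0 : d ≠ 0 := by
    intro h0
    rw [h0] at hd
    exact hd ⟨0, rfl⟩
  have hD : 0 < d.natAbs := Int.natAbs_pos.2 hd0
  set A1 : ℕ := a.natAbs + d.natAbs + 1 with hA1
  obtain ⟨p, hpA, hp⟩ := Nat.exists_infinite_primes (A1 + 1)
  obtain ⟨c0, hc0, N0, hN0⟩ := Pool.Agent.H131DG.class_primes (4 * d.natAbs) (by omega)
  obtain ⟨AG, hAG⟩ := form_ne G m hG hG0
  obtain ⟨M, hM, hform⟩ := form_le G m hG
  set A0 : ℝ := 1 + |(b : ℝ)| + 2 * |(a : ℝ)| with hA0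
  have hA01 : 1 ≤ A0 := by
    have := abs_nonneg (b : ℝ)
    have := abs_nonneg (a : ℝ)
    rw [hA0]
    linarith
  have hlA0 : 0 ≤ Real.log A0 := Real.log_nonneg hA01
  set C' : ℝ := Real.log A0 + 8 * c0 with hC'
  have hC'0 : 0 < C' := by rw [hC']; linarith
  set lp : ℝ := Real.log p with hlp
  have hlp0 : 0 < lp := Real.log_pos (by exact_mod_cast hp.one_lt)
  set T0 : ℝ := ∑ q ∈ range (A1 + 1), Real.log (q : ℝ) with hT0
  set C2 : ℝ := T0 + Real.log M + Real.log 2 + 3 * lp with hC2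
  have hsC' : 0 < Real.sqrt C' := Real.sqrt_pos.2 hC'0
  refine ⟨c0 / (4 * Real.sqrt C'), by positivity, fun C => ?_⟩
  obtain ⟨z, hzN, hzA, hzB, hzs, hzC⟩ := choose_z c0
    (2 * (|C + C2| + (AG + 3) * lp + 5)) ((1 + Real.sqrt (d.natAbs : ℝ)) ^ 2 +
      (Real.log 2 + 2 * lp)) C hc0 (N0 + 500 * p + 3)
  have hz3 : 3 ≤ z := by omega
  have hz1 : (1 : ℝ) < z := by exact_mod_cast (show 1 < z by omega)
  have hz0 : (0 : ℝ) < z := by linarith
  have hlz : 0 < Real.log (z : ℝ) := Real.log_pos hz1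
  have hl2 : (0.69 : ℝ) < Real.log 2 := by
    have := Real.log_two_gt_d9
    linarith
  have hs0 : 0 ≤ Real.sqrt (d.natAbs : ℝ) := Real.sqrt_nonneg _
  -- the set of primes
  set r : ℕ := ⌊c0 * ((z : ℝ) / Real.log z)⌋₊ with hr
  have hr1 : (r : ℝ) ≤ c0 * ((z : ℝ) / Real.log z) := Nat.floor_le (by positivity)
  have hr2 : c0 * ((z : ℝ) / Real.log z) < r + 1 := Nat.lt_floor_add_one _
  have hcard : r ≤ ((Icc 1 z).filter (fun q => q.Prime ∧ p < q ∧ q ≡ 1 [MOD 4 * d.natAbs])).card := by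
    have h1 := hN0 z (by omega) p (by omega)
    exact_mod_cast hr1.trans h1
  obtain ⟨L, hLsub, hLcard⟩ := Finset.exists_subset_card_eq hcard
  have hL : ∀ l ∈ L, l.Prime ∧ l ≡ 1 [MOD 4 * d.natAbs] ∧ p < l ∧ l ≤ z := by
    intro l hl
    have h1 := hLsub hl
    rw [mem_filter, mem_Icc] at h1
    exact ⟨h1.2.1, h1.2.2.2, h1.2.2.1, h1.1.2⟩
  -- the exponents
  set E : ℕ := 8 * z with hE
  have hE0 : 0 < E := by omega
  set n : ℕ := E ^ r / 2 with hn
  set k : ℕ := Nat.log p n - 1 with hk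
  have hlE : Real.log (E : ℝ) = 3 * Real.log 2 + Real.log z := by
    rw [hE]
    push_cast
    rw [Real.log_mul (by norm_num) hz0.ne', show (8 : ℝ) = 2 ^ 3 by norm_num, Real.log_pow]
    push_cast
    ring
  have hF2 : r * Real.log (E : ℝ) ≤ Real.log 2 + (k + 2) * lp := by
    have h1 : E ^ r ≤ 2 * p ^ (k + 2) := by
      have h2 : n < p ^ (Nat.log p n + 1) := Nat.lt_pow_succ_log_self hp.one_lt n
      have h3 : p ^ (Nat.log p n + 1) ≤ p ^ (k + 2) := Nat.pow_le_pow_right hp.pos (by omega)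
      omega
    have h2 : ((E : ℝ)) ^ r ≤ 2 * (p : ℝ) ^ (k + 2) := by exact_mod_cast h1
    have h3 := Real.log_le_log (by positivity) h2
    rw [Real.log_pow, Real.log_mul (by norm_num) (by
      have : (p : ℝ) ≠ 0 := by exact_mod_cast hp.ne_zero
      positivity), Real.log_pow] at h3
    push_cast at h3
    exact h3
  have hr5 : (|C + C2| + (AG + 3) * lp + 4) ≤ r := by
    have := abs_nonneg (C + C2)
    nlinarith
  have hkbig : (AG : ℝ) + 1 < k := by
    have h1 : (r : ℝ) ≤ r * Real.log (E : ℝ) := by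
      have h2 : 1 ≤ Real.log (E : ℝ) := by rw [hlE]; linarith
      have h3 : (0 : ℝ) ≤ r := Nat.cast_nonneg _
      nlinarith
    have h2 : (AG + 3) * lp < (k + 2) * lp := by
      have := abs_nonneg (C + C2)
      have h3 : Real.log 2 < 1 := by
        have := Real.log_two_lt_d9
        linarith
      linarith
    have h3 := lt_of_mul_lt_mul_right h2 hlp0.le
    linarith
  have hkAG : AG + 1 < k := by exact_mod_cast hkbig
  have hk0 : k ≠ 0 := by omega
  have hpE : 2 * p ^ k < E ^ L.card := by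
    rw [hLcard]
    have h1 : Nat.log p n = k + 1 := by omega
    have hn0 : n ≠ 0 := by
      intro h0
      rw [h0, Nat.log_zero_right] at h1
      omega
    have h2 : p ^ (k + 1) ≤ n := by
      rw [← h1]
      exact Nat.pow_log_le_self p hn0
    have h3 : p ^ k < p ^ (k + 1) := Nat.pow_lt_pow_right hp.one_lt (Nat.lt_succ_self k)
    omega
  obtain ⟨x, y, hxy, hy0, hpy, hxW, hyW, hQ0, hQ⟩ := core a b c ha hd p k E z hp hk0
    (by omega) L hL hpE (by omega)
  rw [← hdef] at hxW hyW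
  rw [hLcard] at hxW hyW
  -- the height
  set H : ℝ := ((max |x| |y| : ℤ) : ℝ) with hH
  have hxH : |(x : ℝ)| ≤ H := by
    rw [hH, ← Int.cast_abs]
    exact Int.cast_le.2 (le_max_left _ _)
  have hyH : |(y : ℝ)| ≤ H := by
    rw [hH, ← Int.cast_abs]
    exact Int.cast_le.2 (le_max_right _ _)
  have hpky : (p : ℝ) ^ k ≤ |(y : ℝ)| := by
    have h1 := Int.le_of_dvd (abs_pos.2 hy0) ((dvd_abs _ _).2 hpy)
    rw [← Int.cast_abs]
    exact_mod_cast h1
  have hpk0 : (0 : ℝ) < (p : ℝ) ^ k := pow_pos (by exact_mod_cast hp.pos) _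
  have hH1 : 1 ≤ H := by
    have h1 : (1 : ℝ) ≤ (p : ℝ) ^ k := one_le_pow₀ (by exact_mod_cast hp.one_lt.le)
    linarith
  have hH0 : 0 < H := by linarith
  have hlow : k * lp ≤ Real.log H := by
    rw [hlp, ← Real.log_pow]
    exact Real.log_le_log hpk0 (hpky.trans hyH)
  set W : ℝ := (1 + Real.sqrt (d.natAbs : ℝ)) * Real.sqrt z with hW
  have hsz : 1 + Real.sqrt (d.natAbs : ℝ) ≤ Real.sqrt z := by
    rw [Real.le_sqrt (by linarith) hz0.le]
    linarith
  have hW0 : 0 < W := by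
    rw [hW]
    exact mul_pos (by linarith) (Real.sqrt_pos.2 hz0)
  have hWz : W ≤ z := by
    rw [hW]
    calc (1 + Real.sqrt (d.natAbs : ℝ)) * Real.sqrt z ≤ Real.sqrt z * Real.sqrt z :=
          mul_le_mul_of_nonneg_right hsz (Real.sqrt_nonneg _)
      _ = z := Real.mul_self_sqrt hz0.le
  have hHW : H ≤ A0 * W ^ (r * E) := by
    rw [hH]
    push_cast
    exact max_le hxW hyW
  have hupp : Real.log H ≤ C' * (z : ℝ) ^ 2 := by
    have h1 := Real.log_le_log hH0 hHW
    rw [Real.log_mul (by linarith) (by positivity), Real.log_pow] at h1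
    have h2 : Real.log W ≤ Real.log z := Real.log_le_log hW0 hWz
    have h3 : (r : ℝ) * Real.log z ≤ c0 * z := by
      have h4 := mul_le_mul_of_nonneg_right hr1 hlz.le
      have h5 : c0 * ((z : ℝ) / Real.log z) * Real.log z = c0 * z := by
        field_simp
      linarith
    have h4 : ((r * E : ℕ) : ℝ) * Real.log W ≤ 8 * c0 * (z : ℝ) ^ 2 := by
      calc ((r * E : ℕ) : ℝ) * Real.log W ≤ ((r * E : ℕ) : ℝ) * Real.log z :=
            mul_le_mul_of_nonneg_left h2 (Nat.cast_nonneg _)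
        _ = 8 * z * (r * Real.log z) := by
            rw [hE]; push_cast; ring
        _ ≤ 8 * z * (c0 * z) := mul_le_mul_of_nonneg_left h3 (by positivity)
        _ = _ := by ring
    have h5 : Real.log A0 ≤ Real.log A0 * (z : ℝ) ^ 2 := by
      have : (1 : ℝ) ≤ (z : ℝ) ^ 2 := one_le_pow₀ hz1.le
      nlinarith
    rw [hC']
    linarith
  have hrz : c0 * z - Real.log z ≤ r * Real.log z := by
    have h4 := mul_lt_mul_of_pos_right hr2 hlz
    have h5 : c0 * ((z : ℝ) / Real.log z) * Real.log z = c0 * z := by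
      field_simp
    linarith
  have hlow2 : Real.sqrt z ≤ Real.log H := by
    have h1 : (r : ℝ) * Real.log z ≤ r * Real.log (E : ℝ) := by
      refine mul_le_mul_of_nonneg_left ?_ (Nat.cast_nonneg _)
      rw [hlE]; linarith
    have h2 : 0 ≤ (1 + Real.sqrt (d.natAbs : ℝ)) ^ 2 := by positivity
    linarith
  have hsz1 : 1 < Real.sqrt (z : ℝ) := by
    rw [Real.lt_sqrt (by norm_num)]
    linarith
  have hGne : MvPolynomial.eval ![x, y] G ≠ 0 := by
    refine hAG x y hxy ?_
    have h1 : p ^ k ≤ y.natAbs := by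
      have h1 := Int.le_of_dvd (abs_pos.2 hy0) ((dvd_abs _ _).2 hpy)
      rw [Int.abs_eq_natAbs] at h1
      exact_mod_cast h1
    have h2 : k < p ^ k := Nat.lt_pow_self hp.one_lt
    omega
  have hrad := rad_bound y (a * x ^ 2 + b * x * y + c * y ^ 2) (MvPolynomial.eval ![x, y] G)
    hy0 hQ0 hGne hp hk0 hpy L (fun l hl => (hL l hl).2.2.2) hQ m M H hM hH1 hyH
    (hform x y H (by linarith) hxH hyH)
  rw [hLcard, ← hlp, ← hA1, ← hT0] at hrad
  refine ⟨x, y, hxy, hy0, hQ0, hGne, hzC.trans_le hlow2, ?_⟩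
  -- the error term
  have herr : c0 / (4 * Real.sqrt C') * (Real.sqrt (Real.log H) / Real.log (Real.log H)) ≤
      c0 / 2 * (z / Real.log z) := by
    have h1 : Real.sqrt (Real.log H) ≤ Real.sqrt C' * z := by
      rw [Real.sqrt_le_left (by positivity), mul_pow, Real.sq_sqrt hC'0.le]
      exact hupp
    have h2 : Real.log z / 2 ≤ Real.log (Real.log H) := by
      rw [← Real.log_sqrt hz0.le]
      exact Real.log_le_log (by linarith) hlow2
    have h3 : Real.sqrt (Real.log H) / Real.log (Real.log H) ≤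
        (Real.sqrt C' * z) / (Real.log z / 2) :=
      div_le_div₀ (by positivity) h1 (by positivity) h2
    calc c0 / (4 * Real.sqrt C') * (Real.sqrt (Real.log H) / Real.log (Real.log H)) ≤
        c0 / (4 * Real.sqrt C') * ((Real.sqrt C' * z) / (Real.log z / 2)) :=
          mul_le_mul_of_nonneg_left h3 (by positivity)
      _ = c0 / 2 * (z / Real.log z) := by
          field_simp
          ring
  have hfin : C + C2 + c0 / 2 * (z / Real.log z) ≤ 2 * r := by
    have h1 := le_abs_self (C + C2)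
    have h2 : 0 ≤ (AG + 3 : ℝ) * lp := by positivity
    nlinarith
  have hgain : 2 * (r : ℝ) + r * Real.log z ≤ ((k : ℝ) - 1) * lp + Real.log 2 + 3 * lp := by
    have h1 : (r : ℝ) * Real.log (E : ℝ) = 3 * Real.log 2 * r + r * Real.log z := by
      rw [hlE]; ring
    have h2 : 2 * (r : ℝ) ≤ 3 * Real.log 2 * r := by
      have h3 : (0 : ℝ) ≤ r := Nat.cast_nonneg _
      nlinarith
    linarith
  linarith

end Pool.Agent.H902D
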