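import Mathlib

/-! Products of elements of `ℤ√d`: independence and the pigeonhole principle. -/

set_option autoImplicit false

namespace Pool.Agent.H902D

open Zsqrtd Finset

variable {d : ℤ}

/-- the homomorphism to `R` attached to a square root of `d` -/
noncomputable def phi {R : Type*} [CommRing R] (r : R) (hr : r * r = (d : R)) : ℤ√d →+* R :=
  Zsqrtd.lift ⟨r, hr⟩

theorem phi_apply {R : Type*} [CommRing R] (r : R) (hr : r * r = (d : R)) (a : ℤ√d) :
    phi r hr a = (a.re : R) + a.im * r := by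
  rfl

/-- a product of powers -/
noncomputable def pp {ι : Type*} [Fintype ι] (β : ι → ℤ√d) (e : ι → ℕ) : ℤ√d :=
  ∏ i, β i ^ e i

theorem pp_add {ι : Type*} [Fintype ι] (β : ι → ℤ√d) (e f : ι → ℕ) :
    pp β (fun i => e i + f i) = pp β e * pp β f := by
  unfold pp
  rw [← Finset.prod_mul_distrib]
  exact Finset.prod_congr rfl fun i _ => pow_add _ _ _

theorem phi_pp_ne {ι : Type*} [Fintype ι] {F : Type*} [Field F] (β : ι → ℤ√d) (e : ι → ℕ)
    (φ : ℤ√d →+* F) (h : ∀ i, e i ≠ 0 → φ (β i) ≠ 0) : φ (pp β e) ≠ 0 := by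
  unfold pp
  rw [map_prod, Finset.prod_ne_zero_iff]
  intro i _
  rw [map_pow]
  by_cases h0 : e i = 0
  · rw [h0, pow_zero]; exact one_ne_zero
  · exact pow_ne_zero _ (h i h0)

theorem phi_star_pp_ne {ι : Type*} [Fintype ι] {F : Type*} [Field F] (β : ι → ℤ√d) (e : ι → ℕ)
    (φ : ℤ√d →+* F) (h : ∀ i, e i ≠ 0 → φ (star (β i)) ≠ 0) : φ (star (pp β e)) ≠ 0 := by
  have : star (pp β e) = pp (fun i => star (β i)) e := by
    unfold pp
    have := map_prod (starRingEnd (ℤ√d)) (fun i => β i ^ e i) Finset.univ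
    simp only [map_pow] at this
    exact this
  rw [this]
  exact phi_pp_ne _ _ φ h

theorem phi_star_pp_eq {ι : Type*} [Fintype ι] {F : Type*} [Field F] (β : ι → ℤ√d) (e : ι → ℕ)
    (φ : ℤ√d →+* F) (i : ι) (hi : e i ≠ 0) (h : φ (star (β i)) = 0) : φ (star (pp β e)) = 0 := by
  have : star (pp β e) = pp (fun i => star (β i)) e := by
    unfold pp
    have := map_prod (starRingEnd (ℤ√d)) (fun i => β i ^ e i) Finset.univ
    simp only [map_pow] at this
    exact this
  rw [this]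
  unfold pp
  rw [map_prod]
  apply Finset.prod_eq_zero (Finset.mem_univ i)
  rw [map_pow, h, zero_pow hi]

/-- independence: the quotient of two different products is not rational -/
theorem im_ne {ι : Type*} [Fintype ι] (β : ι → ℤ√d) (F : ι → Type) [∀ i, Field (F i)]
    (φ : ∀ i, ℤ√d →+* F i) (h1 : ∀ i j, φ i (β j) ≠ 0) (h2 : ∀ i, φ i (star (β i)) = 0)
    (h3 : ∀ i j, j ≠ i → φ i (star (β j)) ≠ 0) (f f' : ι → ℕ)
    (hd : ∀ i, f i = 0 ∨ f' i = 0) (hne : ∃ i, f i ≠ 0 ∨ f' i ≠ 0) :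
    (pp β f * star (pp β f')).im ≠ 0 := by
  intro him
  have hstar : star (pp β f * star (pp β f')) = pp β f * star (pp β f') := by
    ext
    · simp
    · rw [im_star, him, neg_zero]
  have hstar2 : star (pp β f) * pp β f' = pp β f * star (pp β f') := by
    rw [← hstar, star_mul, star_star, mul_comm]
  obtain ⟨i, hi⟩ := hne
  have h4 := congrArg (φ i) hstar2
  rw [map_mul, map_mul] at h4
  rcases hi with hi | hi
  · have hi' : f' i = 0 := (hd i).resolve_left hi
    rw [phi_star_pp_eq β f (φ i) i hi (h2 i), zero_mul] at h4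
    refine mul_ne_zero (phi_pp_ne β f (φ i) fun j _ => h1 i j)
      (phi_star_pp_ne β f' (φ i) fun j hj => h3 i j ?_) h4.symm
    rintro rfl
    exact hj hi'
  · have hi' : f i = 0 := (hd i).resolve_right hi
    rw [phi_star_pp_eq β f' (φ i) i hi (h2 i), mul_zero] at h4
    refine mul_ne_zero (phi_star_pp_ne β f (φ i) fun j hj => h3 i j ?_)
      (phi_pp_ne β f' (φ i) fun j _ => h1 i j) h4
    rintro rfl
    exact hj hi'

theorem norm_pp {ι : Type*} [Fintype ι] (β : ι → ℤ√d) (e : ι → ℕ) :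
    (pp β e).norm = ∏ i, (β i).norm ^ e i := by
  unfold pp
  have := map_prod (normMonoidHom (d := d)) (fun i => β i ^ e i) Finset.univ
  simp only [map_pow] at this
  exact this

/-- the class of an element with norm prime to `p` in the projective line over `ℤ / p ^ k` -/
noncomputable def cl (p k : ℕ) (γ : ℤ√d) : Bool × ZMod (p ^ k) := by
  classical
  exact if IsUnit ((γ.im : ℤ) : ZMod (p ^ k)) then
    (true, (γ.re : ZMod (p ^ k)) * ((γ.im : ℤ) : ZMod (p ^ k))⁻¹)
  else (false, (γ.im : ZMod (p ^ k)) * ((γ.re : ℤ) : ZMod (p ^ k))⁻¹)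

theorem isUnit_int {p k : ℕ} (hp : p.Prime) (hk : k ≠ 0) (n : ℤ) :
    IsUnit ((n : ℤ) : ZMod (p ^ k)) ↔ ¬ (p : ℤ) ∣ n := by
  have h1 : IsUnit ((n : ℤ) : ZMod (p ^ k)) ↔ IsCoprime n ((p ^ k : ℕ) : ℤ) := by
    rw [ZMod.coe_int_isUnit_iff_isCoprime]
    exact isCoprime_comm
  rw [h1]
  push_cast
  rw [IsCoprime.pow_right_iff (Nat.pos_of_ne_zero hk), isCoprime_comm,
    (Nat.prime_iff_prime_int.1 hp).coprime_iff_not_dvd]

theorem cl_eq {p k : ℕ} (hp : p.Prime) (hk : k ≠ 0) (γ δ : ℤ√d) (hγ : ¬ (p : ℤ) ∣ γ.norm)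
    (hδ : ¬ (p : ℤ) ∣ δ.norm) (h : cl p k γ = cl p k δ) :
    ((p ^ k : ℕ) : ℤ) ∣ (γ * star δ).im := by
  classical
  have hre : ∀ γ : ℤ√d, ¬ (p : ℤ) ∣ γ.norm → ¬ IsUnit ((γ.im : ℤ) : ZMod (p ^ k)) →
      IsUnit ((γ.re : ℤ) : ZMod (p ^ k)) := by
    intro γ hγ h0
    rw [isUnit_int hp hk, not_not] at h0
    rw [isUnit_int hp hk]
    intro h1
    apply hγ
    rw [norm_def]
    exact dvd_sub (Dvd.dvd.mul_right h1 _) (Dvd.dvd.mul_left h0 _)
  rw [← ZMod.intCast_zmod_eq_zero_iff_dvd]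
  have e1 : (((γ * star δ).im : ℤ) : ZMod (p ^ k)) = (γ.im : ZMod (p ^ k)) * δ.re -
      γ.re * δ.im := by
    rw [im_mul, re_star, im_star]
    push_cast
    ring
  rw [e1]
  unfold cl at h
  by_cases hg : IsUnit ((γ.im : ℤ) : ZMod (p ^ k)) <;>
    by_cases hh : IsUnit ((δ.im : ℤ) : ZMod (p ^ k))
  · simp only [hg, hh, if_true, Prod.mk.injEq, true_and] at h
    have h2 := ZMod.mul_inv_of_unit _ hg
    have h3 := ZMod.mul_inv_of_unit _ hh
    linear_combination (-(γ.im : ZMod (p ^ k)) * δ.im) * h + (γ.re * δ.im : ZMod (p ^ k)) * h2 -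
      (γ.im * δ.re : ZMod (p ^ k)) * h3
  · simp [hg, hh] at h
  · simp [hg, hh] at h
  · simp only [hg, hh, if_false, Prod.mk.injEq, true_and] at h
    have h2 := ZMod.mul_inv_of_unit _ (hre γ hγ hg)
    have h3 := ZMod.mul_inv_of_unit _ (hre δ hδ hh)
    linear_combination ((γ.re : ZMod (p ^ k)) * δ.re) * h - (γ.im * δ.re : ZMod (p ^ k)) * h2 +
      (γ.re * δ.im : ZMod (p ^ k)) * h3

/-- the pigeonhole principle: a product of few elements which is congruent to a rational number -/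
theorem pigeon {ι : Type} [Fintype ι] [DecidableEq ι] (β : ι → ℤ√d) (F : ι → Type)
    [∀ i, Field (F i)]
    (φ : ∀ i, ℤ√d →+* F i) (h1 : ∀ i j, φ i (β j) ≠ 0) (h2 : ∀ i, φ i (star (β i)) = 0)
    (h3 : ∀ i j, j ≠ i → φ i (star (β j)) ≠ 0) {p k E : ℕ} (hp : p.Prime) (hk : k ≠ 0)
    (hpn : ∀ i, ¬ (p : ℤ) ∣ (β i).norm) (hE : 2 * p ^ k < E ^ Fintype.card ι) :
    ∃ f f' : ι → ℕ, (∀ i, f i + f' i < E) ∧ (pp β f * star (pp β f')).im ≠ 0 ∧
      ((p ^ k : ℕ) : ℤ) ∣ (pp β f * star (pp β f')).im := by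
  classical
  have hpz : Prime (p : ℤ) := Nat.prime_iff_prime_int.1 hp
  have hnorm : ∀ e : ι → ℕ, ¬ (p : ℤ) ∣ (pp β e).norm := by
    intro e h
    rw [norm_pp] at h
    obtain ⟨i, -, hi⟩ := (hpz.dvd_finsetProd_iff _).1 h
    exact hpn i (hpz.dvd_of_dvd_pow hi)
  have : NeZero (p ^ k) := ⟨pow_ne_zero _ hp.ne_zero⟩
  have hcard : Fintype.card (Bool × ZMod (p ^ k)) < Fintype.card (ι → Fin E) := by
    rw [Fintype.card_prod, Fintype.card_bool, ZMod.card, Fintype.card_fun, Fintype.card_fin]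
    exact hE
  obtain ⟨e, e', hee, hcl⟩ := Fintype.exists_ne_map_eq_of_card_lt
    (fun e : ι → Fin E => cl p k (pp β fun i => (e i : ℕ))) hcard
  have hdvd := cl_eq hp hk _ _ (hnorm _) (hnorm _) hcl
  set m : ι → ℕ := fun i => min (e i : ℕ) (e' i) with hm
  set f : ι → ℕ := fun i => (e i : ℕ) - e' i with hf
  set f' : ι → ℕ := fun i => (e' i : ℕ) - e i with hf'
  have he : (fun i => (e i : ℕ)) = fun i => m i + f i := by
    funext i
    simp only [hm, hf]
    omega
  have he' : (fun i => (e' i : ℕ)) = fun i => m i + f' i := by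
    funext i
    simp only [hm, hf']
    omega
  rw [he, he', pp_add, pp_add] at hdvd
  have e2 : pp β m * pp β f * star (pp β m * pp β f') =
      ((pp β m).norm : ℤ√d) * (pp β f * star (pp β f')) := by
    rw [norm_eq_mul_conj, star_mul]
    ring
  rw [e2, im_smul] at hdvd
  refine ⟨f, f', fun i => ?_, ?_, ?_⟩
  · have := (e i).2
    have := (e' i).2
    simp only [hf, hf']
    omega
  · refine im_ne β F φ h1 h2 h3 f f' (fun i => ?_) ?_
    · simp only [hf, hf']
      omega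
    · by_contra hcon
      push Not at hcon
      apply hee
      funext i
      have := hcon i
      simp only [hf, hf'] at this
      exact Fin.ext (by omega)
  · have hc : IsCoprime ((p ^ k : ℕ) : ℤ) (pp β m).norm := by
      push_cast
      exact IsCoprime.pow_left (hpz.coprime_iff_not_dvd.2 (hnorm m))
    exact hc.dvd_of_dvd_mul_left hdvd

end Pool.Agent.H902D
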