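import Pool.Agent.H902D.Ring

/-! Elements of `ℤ√d` of small norm divisible by a prime which is `1` modulo `4 |d|`. -/

set_option autoImplicit false

namespace Pool.Agent.H902D

open Zsqrtd Finset

/-- the discriminant is a square modulo the primes which are `1` modulo `4 |d|` -/
theorem sqrt_mod (d : ℤ) (hd : d ≠ 0) (l : ℕ) (hl : l.Prime) (h : l ≡ 1 [MOD 4 * d.natAbs]) :
    ∃ r : ZMod l, r * r = (d : ZMod l) := by
  have : Fact l.Prime := ⟨hl⟩
  have hdn : 0 < d.natAbs := Int.natAbs_pos.2 hd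
  have h4 : l % 4 = 1 := by
    have : l ≡ 1 [MOD 4] := h.of_mul_right _
    exact this
  have hodd : Odd l := Nat.odd_iff.2 (by omega)
  have h1 : jacobiSym d l = 1 := by
    rw [jacobiSym.mod_right d hodd]
    have h2 : l % (4 * d.natAbs) = 1 := by
      have h3 : l % (4 * d.natAbs) = 1 % (4 * d.natAbs) := h
      rw [h3, Nat.mod_eq_of_lt (by omega)]
    rw [h2, jacobiSym.one_right]
  rw [← jacobiSym.legendreSym.to_jacobiSym] at h1
  have h0 : (d : ZMod l) ≠ 0 := by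
    intro h0
    rw [(legendreSym.eq_zero_iff l d).2 h0] at h1
    norm_num at h1
  obtain ⟨r, hr⟩ := (legendreSym.eq_one_iff l h0).1 h1
  exact ⟨r, hr.symm⟩

/-- Thue's lemma -/
theorem thue (l : ℕ) (hl : l.Prime) (r : ZMod l) : ∃ u v : ℤ, ¬ (u = 0 ∧ v = 0) ∧
    |u| ≤ Nat.sqrt l ∧ |v| ≤ Nat.sqrt l ∧ (u : ZMod l) = v * r := by
  classical
  have : NeZero l := ⟨hl.ne_zero⟩
  set s := Nat.sqrt l with hs
  have hcard : Fintype.card (ZMod l) < Fintype.card (Fin (s + 1) × Fin (s + 1)) := by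
    rw [Fintype.card_prod, Fintype.card_fin, ZMod.card]
    exact Nat.lt_succ_sqrt l
  obtain ⟨⟨a, b⟩, ⟨a', b'⟩, hne, heq⟩ := Fintype.exists_ne_map_eq_of_card_lt
    (fun w : Fin (s + 1) × Fin (s + 1) => ((w.1 : ℕ) : ZMod l) - ((w.2 : ℕ) : ZMod l) * r) hcard
  simp only at heq
  have ha := a.2
  have hb := b.2
  have ha' := a'.2
  have hb' := b'.2
  refine ⟨(a : ℕ) - (a' : ℕ), (b : ℕ) - (b' : ℕ), ?_, ?_, ?_, ?_⟩
  · rintro ⟨h1, h2⟩
    apply hne
    rw [Prod.mk.injEq]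
    exact ⟨Fin.ext (by omega), Fin.ext (by omega)⟩
  · rw [abs_le]; constructor <;> omega
  · rw [abs_le]; constructor <;> omega
  · push_cast
    linear_combination heq

/-- an element of small norm -/
theorem exists_beta (d : ℤ) (hd : ¬ IsSquare d) (l : ℕ) (hl : l.Prime)
    (h : l ≡ 1 [MOD 4 * d.natAbs]) (hbig : d.natAbs + 1 < l) :
    ∃ (β : ℤ√d) (φ : ℤ√d →+* ZMod l), φ β ≠ 0 ∧ φ (star β) = 0 ∧
      |β.re| ≤ Nat.sqrt l ∧ |β.im| ≤ Nat.sqrt l ∧
      ∃ k : ℤ, k ≠ 0 ∧ k.natAbs ≤ d.natAbs + 1 ∧ β.norm = k * l := by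
  have : Fact l.Prime := ⟨hl⟩
  have hd0 : d ≠ 0 := by
    rintro rfl
    exact hd ⟨0, rfl⟩
  have hdn : 0 < d.natAbs := Int.natAbs_pos.2 hd0
  have hns : ∀ n : ℤ, d ≠ n * n := fun n hn => hd ⟨n, hn⟩
  obtain ⟨r, hr⟩ := sqrt_mod d hd0 l hl h
  obtain ⟨u, v, huv, hu, hv, hmod⟩ := thue l hl r
  have h4 : l % 4 = 1 := by
    have : l ≡ 1 [MOD 4] := h.of_mul_right _
    exact this
  have hsq : Nat.sqrt l * Nat.sqrt l ≤ l := Nat.sqrt_le l
  have hsl : Nat.sqrt l < l := Nat.sqrt_lt_self hl.one_lt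
  set β : ℤ√d := ⟨u, v⟩ with hβ
  have hphi : ∀ a : ℤ√d, phi r hr a = (a.re : ZMod l) + a.im * r := phi_apply r hr
  have hβ0 : β ≠ 0 := by
    intro h0
    apply huv
    exact ⟨congrArg Zsqrtd.re h0, congrArg Zsqrtd.im h0⟩
  have hn0 : β.norm ≠ 0 := by
    rw [Ne, Zsqrtd.norm_eq_zero hns]
    exact hβ0
  have hsmall : ∀ w : ℤ, |w| ≤ Nat.sqrt l → (w : ZMod l) = 0 → w = 0 := by
    intro w hw h0
    rw [ZMod.intCast_zmod_eq_zero_iff_dvd] at h0
    by_contra hw0
    have h1 := Int.le_of_dvd (abs_pos.2 hw0) ((dvd_abs _ _).2 h0)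
    have h2 : (l : ℤ) ≤ (Nat.sqrt l : ℤ) := h1.trans hw
    have h3 : l ≤ Nat.sqrt l := by exact_mod_cast h2
    omega
  have hv0 : (v : ZMod l) ≠ 0 := by
    intro h0
    have hv' := hsmall v hv h0
    have hu' := hsmall u hu (by rw [hmod, h0, zero_mul])
    exact huv ⟨hu', hv'⟩
  have hr0 : r ≠ 0 := by
    rintro rfl
    rw [mul_zero] at hr
    have h1 : (d : ZMod l) = 0 := hr.symm
    rw [ZMod.intCast_zmod_eq_zero_iff_dvd] at h1
    have h2 := Int.le_of_dvd (abs_pos.2 hd0) ((dvd_abs _ _).2 h1)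
    rw [Int.abs_eq_natAbs] at h2
    have h3 : l ≤ d.natAbs := by exact_mod_cast h2
    omega
  have h20 : (2 : ZMod l) ≠ 0 := by
    intro h0
    have h1 : ((2 : ℕ) : ZMod l) = 0 := by exact_mod_cast h0
    rw [ZMod.natCast_eq_zero_iff] at h1
    have h2 := Nat.le_of_dvd (by norm_num) h1
    omega
  have hstar : phi r hr (star β) = 0 := by
    rw [hphi, re_star, im_star]
    show (u : ZMod l) + ((-v : ℤ) : ZMod l) * r = 0
    rw [hmod]
    push_cast
    ring
  refine ⟨β, phi r hr, ?_, hstar, hu, hv, ?_⟩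
  · rw [hphi]
    show (u : ZMod l) + (v : ZMod l) * r ≠ 0
    rw [hmod]
    have : (v : ZMod l) * r + v * r = 2 * (v * r) := by ring
    rw [this]
    exact mul_ne_zero h20 (mul_ne_zero hv0 hr0)
  · have hdvd : (l : ℤ) ∣ β.norm := by
      rw [← ZMod.intCast_zmod_eq_zero_iff_dvd]
      have h1 := congrArg (phi r hr) (norm_eq_mul_conj β)
      rw [map_mul, hstar, mul_zero] at h1
      rw [map_intCast] at h1
      exact h1
    obtain ⟨k, hk⟩ := hdvd
    have hl0 : (0 : ℤ) < l := by exact_mod_cast hl.pos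
    refine ⟨k, ?_, ?_, by rw [hk, mul_comm]⟩
    · rintro rfl
      exact hn0 (by rw [hk, mul_zero])
    · have h1 : |β.norm| ≤ (|d| + 1) * l := by
        rw [norm_def]
        have h2 : |u * u - d * v * v| ≤ |u| * |u| + |d| * (|v| * |v|) := by
          calc |u * u - d * v * v| ≤ |u * u| + |d * v * v| := abs_sub _ _
            _ = _ := by rw [abs_mul, abs_mul, abs_mul]; ring
        have h3 : |u| * |u| ≤ (Nat.sqrt l : ℤ) * Nat.sqrt l :=
          mul_le_mul hu hu (abs_nonneg _) (by positivity)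
        have h4 : |v| * |v| ≤ (Nat.sqrt l : ℤ) * Nat.sqrt l :=
          mul_le_mul hv hv (abs_nonneg _) (by positivity)
        have h5 : (Nat.sqrt l : ℤ) * Nat.sqrt l ≤ l := by exact_mod_cast hsq
        have h6 : |d| * (|v| * |v|) ≤ |d| * l :=
          mul_le_mul_of_nonneg_left (h4.trans h5) (abs_nonneg _)
        calc |u * u - d * v * v| ≤ _ := h2
          _ ≤ l + |d| * l := add_le_add (h3.trans h5) h6
          _ = _ := by ring
      rw [hk, abs_mul, Nat.abs_cast] at h1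
      have h2 : |k| ≤ |d| + 1 := by
        by_contra hcon
        push Not at hcon
        have h3 : (|d| + 1) * (l : ℤ) < |k| * l := mul_lt_mul_of_pos_right hcon hl0
        nlinarith
      rw [Int.abs_eq_natAbs, Int.abs_eq_natAbs] at h2
      exact_mod_cast h2

end Pool.Agent.H902D
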